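import Pool.Agent.Q192.EC.Heis

set_option linter.style.longLine false

/-!
# A group with centre of infinite index whose `E_com` is homotopy equivalent to the circle

For a discrete group `G` the space `E_com G` is the geometric realization of the simplicial set
whose `n`-simplices are the tuples `(g_0, ..., g_n)` contained in one left coset `g A` of an
abelian subgroup `A`.  For the integral Heisenberg group of infinite rank this space is homotopy
equivalent to the circle, although the centre has infinite index.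
-/

namespace Pool.Agent.Results.MP_510dd6_gt.EcomCircle

open CategoryTheory Simplicial Opposite ContinuousMap

/-- The tuple `x` lies in one left coset `g A` of an abelian subgroup `A`. -/
def InAbelianCoset (G : Type) [Group G] (n : ℕ) (x : Fin (n + 1) → G) : Prop :=
  ∃ (g : G) (A : Subgroup G), (∀ a ∈ A, ∀ b ∈ A, a * b = b * a) ∧ ∀ i, ∃ a ∈ A, x i = g * a

lemma InAbelianCoset.comp {G : Type} [Group G] (n m : ℕ) (x : Fin (n + 1) → G)
    (θ : Fin (m + 1) → Fin (n + 1)) (h : InAbelianCoset G n x) : InAbelianCoset G m (x ∘ θ) := by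
  obtain ⟨g, A, hA, hx⟩ := h
  exact ⟨g, A, hA, fun i => hx (θ i)⟩

/-- The simplicial set whose `n`-simplices are the tuples `(g_0, ..., g_n)` in one left coset of an
abelian subgroup; face maps delete entries and degeneracy maps repeat entries. -/
def Ecom (G : Type) [Group G] : SSet.{0} where
  obj n := {x : Fin (n.unop.len + 1) → G // InAbelianCoset G n.unop.len x}
  map f := ↾fun x => ⟨x.1 ∘ f.unop.toOrderHom, InAbelianCoset.comp _ _ _ _ x.2⟩
  map_id n := by ext x; rfl
  map_comp f g := by ext x; rfl

open Pool.Agent.Q192.EC Pool.Agent.Q192.EC.Heis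

/-- The tuples of `E_com`. -/
def ecomTup (G : Type) [Group G] : Tup G where
  mem n x := InAbelianCoset G n x
  comp _ _ _ _ h := InAbelianCoset.comp _ _ _ _ h

lemma ecom_eq (G : Type) [Group G] : Ecom G = (ecomTup G).sset := rfl

lemma closure_comm {G : Type} [Group G] (S : Set G) (h : ∀ a ∈ S, ∀ b ∈ S, a * b = b * a) :
    ∀ a ∈ Subgroup.closure S, ∀ b ∈ Subgroup.closure S, a * b = b * a := by
  have h1 : Subgroup.closure S ≤ Subgroup.centralizer S := by
    rw [Subgroup.closure_le]
    intro a ha
    rw [SetLike.mem_coe, Subgroup.mem_centralizer_iff]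
    intro b hb
    exact h b hb a ha
  have h2 : Subgroup.closure S ≤ Subgroup.centralizer (Subgroup.closure S : Set G) := by
    rw [Subgroup.closure_le]
    intro a ha
    rw [SetLike.mem_coe, Subgroup.mem_centralizer_iff]
    intro b hb
    exact ((Subgroup.mem_centralizer_iff.1 (h1 hb)) a ha).symm
  intro a ha b hb
  exact ((Subgroup.mem_centralizer_iff.1 (h2 ha)) b hb).symm

lemma hX1 (n : ℕ) (x : Fin (n + 1) → Heis) (h : (ecomTup Heis).mem n x) (i j : Fin (n + 1)) :
    om (x i) (x j) = om (x 0) (x j) - om (x 0) (x i) := by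
  obtain ⟨g, A, hA, hx⟩ := h
  have key : ∀ k l, ∃ a b : Heis, a ∈ A ∧ b ∈ A ∧ x k = g * a ∧ x l = g * b := by
    intro k l
    obtain ⟨a, ha, h1⟩ := hx k
    obtain ⟨b, hb, h2⟩ := hx l
    exact ⟨a, b, ha, hb, h1, h2⟩
  choose a ha hxa using hx
  have e : ∀ k l, om (x k) (x l) = om g (a l) - om g (a k) := by
    intro k l
    have h0 : om (a k) (a l) = 0 := (comm_iff _ _).1 (hA _ (ha k) _ (ha l))
    rw [hxa k, hxa l, om_mul_left, om_mul_right, om_mul_right, om_self, h0, om_swap g (a k)]
    ring
  rw [e, e, e]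
  ring

lemma hX2 (n : ℕ) (u : Fin (n + 1) → Heis × ℤ) (h : (Tup.cov om).mem n u) :
    (ecomTup Heis).mem n (Prod.fst ∘ u) := by
  refine ⟨(u 0).1, Subgroup.closure (Set.range fun i => (u 0).1⁻¹ * (u i).1), ?_, ?_⟩
  · apply closure_comm
    rintro _ ⟨i, rfl⟩ _ ⟨j, rfl⟩
    rw [comm_iff]
    have h1 := h i j
    have h2 := h 0 i
    have h3 := h 0 j
    rw [om_mul_left, om_mul_right, om_mul_right, om_inv_right, om_inv_left, om_inv_left, om_inv_right,
      om_self, om_swap (u 0).1 (u i).1, h1, h2, h3]
    ring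
  · intro i
    refine ⟨(u 0).1⁻¹ * (u i).1, Subgroup.subset_closure ⟨i, rfl⟩, ?_⟩
    rw [mul_inv_cancel_left]
    rfl

/-- There is a group `G` whose centre has infinite index and for which `E_com G` is homotopy
equivalent to the circle. -/
theorem result : ∃ (G : Type) (_ : Group G), ¬ (Subgroup.center G).FiniteIndex ∧
    Nonempty (|Ecom G| ≃ₕ Circle) := by
  refine ⟨Heis, inferInstance, ?_, ?_⟩
  · intro h
    exact h.index_ne_zero center_index
  · obtain ⟨c, k, hk0, hk1⟩ := cover_contractible
    obtain ⟨e⟩ := Tup.circle om (ecomTup Heis) hX1 hX2 c k hk0 hk1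
    have e2 : AddCircle (1 : ℝ) ≃ₕ Circle := (AddCircle.homeomorphCircle (T := 1) one_ne_zero).toHomotopyEquiv
    exact ⟨e.trans e2⟩

end Pool.Agent.Results.MP_510dd6_gt.EcomCircle
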